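import Pool.Agent.RCG.Fin15

/-!
# Random Cayley graphs of `PSL (2, p)`: the Sarnak-Xue density in every representation

For every fixed degree `k = 2 d ≥ 4` and `0 < η < 1`, for all large primes `p` and all but a
proportion `p ^ (-η/2)` of the `d`-tuples of elements of `PSL (2, p)`: in every space `W` of
functions of sum zero which is invariant under the right translations (in particular in every
nontrivial irreducible representation) and for all `θ` in `[0, 1]` the adjacency operator has at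
most `4 k p ^ (-(1-η) θ) dim W` eigenvalues of absolute value more than
`(k-1) ^ ((1+θ)/2) + (k-1) ^ ((1-θ)/2)`.
-/

set_option autoImplicit false

namespace Pool.Agent.Results.MP_e85204_al.EveryRepresentation

/-- the group `PSL (2, p)` -/
abbrev PSL (p : ℕ) : Type := Matrix.SpecialLinearGroup (Fin 2) (ZMod p) ⧸
  Subgroup.center (Matrix.SpecialLinearGroup (Fin 2) (ZMod p))

/-- spaces of complex functions of sum zero, invariant under the right translations -/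
def Invariant {p : ℕ} (W : Submodule ℂ (PSL p → ℂ)) : Prop :=
  (∀ f ∈ W, ∑ᶠ x, f x = 0) ∧ ∀ h : PSL p, ∀ f ∈ W, (fun x => f (x * h)) ∈ W

/-- the adjacency operator `(A f)(x) = ∑ i, (f (x s_i) + f (x s_i⁻¹))` satisfies
`‖A f‖ > R ‖f‖` for all nonzero `f` in `E` -/
def Exceptional {p d : ℕ} (s : Fin d → PSL p) (R : ℝ) (E : Submodule ℂ (PSL p → ℂ)) : Prop :=
  ∀ f ∈ E, f ≠ 0 → R ^ 2 * ∑ᶠ x, ‖f x‖ ^ 2 <
    ∑ᶠ x, ‖∑ i : Fin d, (f (x * s i) + f (x * (s i)⁻¹))‖ ^ 2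

theorem result : ∀ (d : ℕ) (η : ℝ), 2 ≤ d → 0 < η → η < 1 → ∃ P : ℕ, ∀ p : ℕ, p.Prime → P ≤ p →
    (1 - (p : ℝ) ^ (-(η / 2))) * (Nat.card (PSL p) : ℝ) ^ d ≤
      (Nat.card {s : Fin d → PSL p // ∀ θ : ℝ, 0 ≤ θ → θ ≤ 1 →
        ∀ W E : Submodule ℂ (PSL p → ℂ), Invariant W → E ≤ W →
          Exceptional s ((2 * (d : ℝ) - 1) ^ ((1 + θ) / 2) + (2 * (d : ℝ) - 1) ^ ((1 - θ) / 2)) E →
            (Module.finrank ℂ E : ℝ) ≤
              8 * (d : ℝ) * (p : ℝ) ^ (-((1 - η) * θ)) * Module.finrank ℂ W} : ℝ) := by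
  intro d η hd hη hη1
  obtain ⟨P, hP⟩ := Pool.Agent.RCG.all_FNB d η hd hη hη1
  refine ⟨P, fun p hp hpP => ?_⟩
  haveI : Fact p.Prime := ⟨hp⟩
  haveI : Fintype (PSL p) := Fintype.ofFinite _
  have h1 := Pool.Agent.RCG.FIN14_.count Pool.Agent.RCG.prove_SPQ Pool.Agent.RCG.prove_QUC p d
    ((p : ℝ) ^ (-(η / 2))) (PSL p) (QuotientGroup.mk' _) (QuotientGroup.mk'_surjective _)
    (fun θ => (2 * (d : ℝ) - 1) ^ ((1 + θ) / 2) + (2 * (d : ℝ) - 1) ^ ((1 - θ) / 2))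
    (fun θ => 8 * (d : ℝ) * (p : ℝ) ^ (-((1 - η) * θ))) (hP p hpP)
  rw [Nat.card_eq_fintype_card (α := PSL p)]
  refine h1.trans ?_
  have h2 := Nat.card_le_card_of_injective
    (Subtype.map (p := fun s : Fin d → PSL p => ∀ θ : ℝ, 0 ≤ θ → θ ≤ 1 → Pool.Agent.RCG.SPS s
        ((2 * (d : ℝ) - 1) ^ ((1 + θ) / 2) + (2 * (d : ℝ) - 1) ^ ((1 - θ) / 2))
        (8 * (d : ℝ) * (p : ℝ) ^ (-((1 - η) * θ))))
      (q := fun s : Fin d → PSL p => ∀ θ : ℝ, 0 ≤ θ → θ ≤ 1 →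
        ∀ W E : Submodule ℂ (PSL p → ℂ), Invariant W → E ≤ W →
          Exceptional s ((2 * (d : ℝ) - 1) ^ ((1 + θ) / 2) + (2 * (d : ℝ) - 1) ^ ((1 - θ) / 2)) E →
            (Module.finrank ℂ E : ℝ) ≤
              8 * (d : ℝ) * (p : ℝ) ^ (-((1 - η) * θ)) * Module.finrank ℂ W) id
      (fun s hs θ h0 h1 W E hW hEW hE => by
        refine Pool.Agent.RCG.FIN14_.conv Pool.Agent.RCG.prove_RTP s _ _ (hs θ h0 h1) W E
          (fun f hf => ?_) hW.2 hEW (fun f hf hf0 => ?_)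
        · have := hW.1 f hf
          rwa [finsum_eq_sum_of_fintype] at this
        · have := hE f hf hf0
          rwa [finsum_eq_sum_of_fintype, finsum_eq_sum_of_fintype] at this))
    (Subtype.map_injective _ Function.injective_id)
  exact_mod_cast h2

end Pool.Agent.Results.MP_e85204_al.EveryRepresentation
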