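import Pool.Agent.AlmRam.Main

set_option autoImplicit false

/-!
# MP_e85204_al: a limit for the rate in the almost Ramanujan property

For every `d ≥ 2` and every `C` there are `ε, δ > 0` such that for all large primes `p` the
probability that the random `2 d`-regular Cayley graph of `PSL(2, p)` has at least
`δ |PSL(2, p)|` exceptional eigenvalues, of absolute value more than
`2 * sqrt (2 * d - 1) + ε`, is at least `C / p`.
-/

namespace Pool.Agent.Results.MP_e85204_al.FailureRate

open Pool.Agent.AlmRam

/-- For every `d ≥ 2` and every `C` there are `ε, δ > 0` and `P` such that for all primes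
`p ≥ P` at least `C / p` of the `d`-tuples in `PSL(2, p)` have the property
`ManyExceptional ε δ`. -/
theorem result : ∀ d : ℕ, 2 ≤ d → ∀ C : ℝ,
    ∃ ε : ℝ, 0 < ε ∧ ∃ δ : ℝ, 0 < δ ∧ ∃ P : ℕ, ∀ p : ℕ, p.Prime → P ≤ p →
      C * (Nat.card (PSL p) : ℝ) ^ d ≤
        p * Nat.card {s : Fin d → PSL p // ManyExceptional ε δ s} :=
  fun d hd C => main d hd C

end Pool.Agent.Results.MP_e85204_al.FailureRate
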