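import Pool.Agent.RCG.Fin2
import Pool.Agent.RCG.Fin9

/-!
# Random Cayley graphs of `PSL (2, p)` are Ramanujan up to a factor `O (√(log k))` in the degree
`k`, uniformly in the degree

Let `k = 2 d`. For every `a > 0` there is `P` such that for all primes `p ≥ P` and ALL `d ≥ 1`
all but a proportion `p ^ (-a)` of the `d`-tuples of elements of `PSL (2, p)` give a Cayley graph
whose adjacency operator has norm at most `308 √(a + 5) √(k log k)` on the functions of sum zero.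
-/

set_option autoImplicit false

namespace Pool.Agent.Results.MP_e85204_al.LargeDegree

/-- the group `PSL (2, p)` -/
abbrev PSL (p : ℕ) : Type := Matrix.SpecialLinearGroup (Fin 2) (ZMod p) ⧸
  Subgroup.center (Matrix.SpecialLinearGroup (Fin 2) (ZMod p))

/-- the adjacency operator `f ↦ (x ↦ ∑ i, (f (x s_i) + f (x s_i⁻¹)))` has norm at most `B` on the
functions of sum zero -/
def NormLe {p d : ℕ} (s : Fin d → PSL p) (B : ℝ) : Prop :=
  ∀ f : PSL p → ℝ, ∑ᶠ x, f x = 0 →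
    ∑ᶠ x, (∑ i : Fin d, (f (x * s i) + f (x * (s i)⁻¹))) ^ 2 ≤ B ^ 2 * ∑ᶠ x, f x ^ 2

theorem result :
    ∀ a : ℝ, 0 < a → ∃ P : ℕ, ∀ p : ℕ, p.Prime → P ≤ p → ∀ d : ℕ, 1 ≤ d →
      (1 - (p : ℝ) ^ (-a)) * (Nat.card (PSL p) : ℝ) ^ d ≤
        (Nat.card {s : Fin d → PSL p //
          NormLe s (308 * √(a + 5) * √(2 * (d : ℝ) * Real.log (2 * (d : ℝ))))} : ℝ) := by
  open Pool.Agent.RCG in
  intro a ha
  obtain ⟨P, hP⟩ := all_UNI a ha
  refine ⟨P, fun p hp hpP d hd => ?_⟩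
  have : Fact p.Prime := ⟨hp⟩
  exact FIN2_.toPSL prove_QUO prove_POL p d _ _ (by positivity) (hP p hpP d hd)

end Pool.Agent.Results.MP_e85204_al.LargeDegree
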