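import Pool.Agent.RCG.Fin2
import Pool.Agent.RCG.Fin13
import Pool.Agent.RCG.BNS
import Pool.Agent.RCG.RCG
import Pool.Agent.RCG.ZNM
import Pool.Agent.RCG.CAT

/-!
# Random Cayley graphs of `PSL (2, p)` are nearly Ramanujan, with a rate in the degree

There is a constant `C` such that for every fixed degree `k = 2 d ≥ 2` and all large primes `p`
all but a proportion `p ^ (-1/4)` of the `d`-tuples of elements of `PSL (2, p)` give a Cayley graph
whose adjacency operator has norm at most `min (364 √k) (2 √(k - 1) + C k ^ (3/7))` on the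
functions of sum zero.
-/

set_option autoImplicit false

namespace Pool.Agent.Results.MP_e85204_al.NearRamanujan

/-- the group `PSL (2, p)` -/
abbrev PSL (p : ℕ) : Type := Matrix.SpecialLinearGroup (Fin 2) (ZMod p) ⧸
  Subgroup.center (Matrix.SpecialLinearGroup (Fin 2) (ZMod p))

/-- the adjacency operator `f ↦ (x ↦ ∑ i, (f (x s_i) + f (x s_i⁻¹)))` has norm at most `B` on the
functions of sum zero -/
def NormLe {p d : ℕ} (s : Fin d → PSL p) (B : ℝ) : Prop :=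
  ∀ f : PSL p → ℝ, ∑ᶠ x, f x = 0 →
    ∑ᶠ x, (∑ i : Fin d, (f (x * s i) + f (x * (s i)⁻¹))) ^ 2 ≤ B ^ 2 * ∑ᶠ x, f x ^ 2

theorem result : ∃ C : ℝ, 0 ≤ C ∧ ∀ d : ℕ, 1 ≤ d → ∃ P : ℕ, ∀ p : ℕ, p.Prime → P ≤ p →
    (1 - (p : ℝ) ^ (-(1 / 4 : ℝ))) * (Nat.card (PSL p) : ℝ) ^ d ≤
      (Nat.card {s : Fin d → PSL p // NormLe s (min (364 * √(2 * (d : ℝ)))
        (2 * √(2 * (d : ℝ) - 1) + C * (2 * (d : ℝ)) ^ (3 / 7 : ℝ)))} : ℝ) := by
  open Pool.Agent.RCG in
  obtain ⟨C, hC, h⟩ := rate (all_QFI (prove_BNS all_GT prove_EXZ prove_SPE)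
    (prove_RCG prove_TOP (prove_LIF prove_MIX)) prove_ZNM prove_CAT) prove_ELEU
  refine ⟨C, hC, fun d hd => ?_⟩
  obtain ⟨P, hP⟩ := h d hd
  refine ⟨P, fun p hp hpP => ?_⟩
  have : Fact p.Prime := ⟨hp⟩
  exact FIN2_.toPSL prove_QUO prove_POL p d _ _ (le_min (by positivity) (by positivity))
    (hP p hpP)

end Pool.Agent.Results.MP_e85204_al.NearRamanujan
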